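import Pool.Agent.R493.MS.Wick

/-! Third and fourth mixed moments of iid centred variables and of linear forms. -/

set_option autoImplicit false

open scoped BigOperators
open MeasureTheory ProbabilityTheory

namespace Pool.Agent.K3h27.EF

open Pool.Agent.R493.MS (mul4 moment4 dl lf sp mono_int lf_four lf_int)

variable {ι : Type} [Fintype ι] [DecidableEq ι]

variable (μ : Measure ℝ) [IsProbabilityMeasure μ]

/-- fourth cumulant of a centred law -/
noncomputable def cu4 : ℝ := (∫ t, t ^ 4 ∂μ) - 3 * (∫ t, t ^ 2 ∂μ) ^ 2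

/-- all four equal -/
def dl4 (a b c e : ι) : ℝ := if a = b ∧ b = c ∧ c = e then 1 else 0

theorem m_zero : ∫ t : ℝ, t ^ 0 ∂μ = 1 := by simp

theorem zero_of (hμ : ∫ t, t ∂μ = 0) (a b c e x : ι) (h : mul4 a b c e x = 1) :
    ∏ x, ∫ t, t ^ mul4 a b c e x ∂μ = 0 := by
  refine Finset.prod_eq_zero (Finset.mem_univ x) ?_
  rw [h]
  simp only [pow_one]
  exact hμ

theorem two_pairs (a b c e x y : ι) (hxy : x ≠ y) (hx : mul4 a b c e x = 2)
    (hy : mul4 a b c e y = 2) (h : ∀ z, z ≠ x → z ≠ y → mul4 a b c e z = 0) :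
    ∏ x, ∫ t, t ^ mul4 a b c e x ∂μ = (∫ t, t ^ 2 ∂μ) ^ 2 := by
  rw [Finset.prod_eq_mul x y hxy]
  · rw [hx, hy, sq]
  · intro z _ hz
    rw [h z hz.1 hz.2, m_zero]
  · intro hh
    exact absurd (Finset.mem_univ _) hh
  · intro hh
    exact absurd (Finset.mem_univ _) hh

theorem wick4 (hμ : ∫ t, t ∂μ = 0) (a b c e : ι) :
    ∫ V : ι → ℝ, V a * V b * V c * V e ∂(Measure.pi fun _ => μ) =
      (∫ t, t ^ 2 ∂μ) ^ 2 * (dl a b * dl c e + dl a c * dl b e + dl a e * dl b c) +
        cu4 μ * dl4 a b c e := by
  rw [moment4]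
  unfold dl dl4
  by_cases hab : a = b
  · subst hab
    by_cases hce : c = e
    · subst hce
      by_cases hac : a = c
      · subst hac
        rw [Finset.prod_eq_single a]
        · have : mul4 a a a a a = 4 := by simp [mul4]
          rw [this]
          simp only [if_true, and_self, cu4]
          ring
        · intro z _ hz
          have : mul4 a a a a z = 0 := by simp [mul4, hz]
          rw [this, m_zero]
        · intro hh
          exact absurd (Finset.mem_univ _) hh
      · rw [two_pairs μ a a c c a c hac (by simp [mul4, hac]) (by simp [mul4, Ne.symm hac])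
          (by intro z h1 h2; simp [mul4, h1, h2])]
        simp [hac]
    · by_cases hac : a = c
      · subst hac
        rw [zero_of μ hμ a a a e e (by simp [mul4, Ne.symm hce])]
        simp [hce]
      · rw [zero_of μ hμ a a c e c (by simp [mul4, Ne.symm hac, hce])]
        simp [hac, hce]
  · by_cases hac : a = c
    · subst hac
      by_cases hbe : b = e
      · subst hbe
        rw [two_pairs μ a b a b a b hab (by simp [mul4, hab]) (by simp [mul4, Ne.symm hab])
          (by intro z h1 h2; simp [mul4, h1, h2])]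
        simp [hab]
      · rw [zero_of μ hμ a b a e b (by simp [mul4, Ne.symm hab, hbe])]
        simp [hab, hbe, Ne.symm hab]
    · by_cases hae : a = e
      · subst hae
        by_cases hbc : b = c
        · subst hbc
          rw [two_pairs μ a b b a a b hab (by simp [mul4, hab]) (by simp [mul4, Ne.symm hab])
            (by intro z h1 h2; simp [mul4, h1, h2])]
          simp [hab]
        · rw [zero_of μ hμ a b c a b (by simp [mul4, Ne.symm hab, hbc])]
          simp [hab, hbc, hac]
      · rw [zero_of μ hμ a b c e a (by simp [mul4, hab, hac, hae])]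
        simp [hab, hac, hae]

theorem lf_wick (hμ : ∫ t, t ∂μ = 0) (hi : ∀ n : ℕ, Integrable (fun t : ℝ => t ^ n) μ)
    (α β γ δ : ι → ℝ) :
    ∫ V : ι → ℝ, lf α V * lf β V * lf γ V * lf δ V ∂(Measure.pi fun _ => μ) =
      (∫ t, t ^ 2 ∂μ) ^ 2 * (sp α β * sp γ δ + sp α γ * sp β δ + sp α δ * sp β γ) +
        cu4 μ * ∑ a, α a * β a * γ a * δ a := by
  have hI : ∀ a b c e : ι, Integrable (fun V : ι → ℝ =>
      (α a * β b * γ c * δ e) * (V a * V b * V c * V e)) (Measure.pi fun _ => μ) := fun a b c e =>
    (mono_int μ hi a b c e).const_mul _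
  simp only [lf_four]
  rw [integral_finsetSum _ fun a _ => integrable_finsetSum _ fun b _ =>
    integrable_finsetSum _ fun c _ => integrable_finsetSum _ fun e _ => hI a b c e]
  have e1 : ∀ a : ι, ∫ V : ι → ℝ, ∑ b, ∑ c, ∑ e, (α a * β b * γ c * δ e) *
      (V a * V b * V c * V e) ∂(Measure.pi fun _ => μ) =
      ∑ b, ∑ c, ∑ e, (α a * β b * γ c * δ e) *
        ((∫ t, t ^ 2 ∂μ) ^ 2 * (dl a b * dl c e + dl a c * dl b e + dl a e * dl b c) +
          cu4 μ * dl4 a b c e) := by
    intro a
    rw [integral_finsetSum _ fun b _ => integrable_finsetSum _ fun c _ =>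
      integrable_finsetSum _ fun e _ => hI a b c e]
    refine Finset.sum_congr rfl fun b _ => ?_
    rw [integral_finsetSum _ fun c _ => integrable_finsetSum _ fun e _ => hI a b c e]
    refine Finset.sum_congr rfl fun c _ => ?_
    rw [integral_finsetSum _ fun e _ => hI a b c e]
    refine Finset.sum_congr rfl fun e _ => ?_
    rw [integral_const_mul, wick4 μ hμ]
  rw [Finset.sum_congr rfl fun a _ => e1 a]
  have s1 : ∑ a, ∑ b, ∑ c, ∑ e, (α a * β b * γ c * δ e) * (dl a b * dl c e) = sp α β * sp γ δ := by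
    unfold sp dl
    rw [Finset.sum_mul_sum]
    refine Finset.sum_congr rfl fun a _ => ?_
    rw [Finset.sum_eq_single a]
    · refine Finset.sum_congr rfl fun c _ => ?_
      rw [Finset.sum_eq_single c]
      · simp
        ring
      · intro e _ he
        rw [if_neg (Ne.symm he), mul_zero, mul_zero]
      · intro h
        exact absurd (Finset.mem_univ _) h
    · intro b _ hb
      simp [Ne.symm hb]
    · intro h
      exact absurd (Finset.mem_univ _) h
  have s2 : ∑ a, ∑ b, ∑ c, ∑ e, (α a * β b * γ c * δ e) * (dl a c * dl b e) = sp α γ * sp β δ := by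
    unfold sp dl
    rw [Finset.sum_mul_sum]
    refine Finset.sum_congr rfl fun a _ => ?_
    refine Finset.sum_congr rfl fun b _ => ?_
    rw [Finset.sum_eq_single a]
    · rw [Finset.sum_eq_single b]
      · simp
        ring
      · intro e _ he
        rw [if_neg (Ne.symm he), mul_zero, mul_zero]
      · intro h
        exact absurd (Finset.mem_univ _) h
    · intro c _ hc
      simp [Ne.symm hc]
    · intro h
      exact absurd (Finset.mem_univ _) h
  have s3 : ∑ a, ∑ b, ∑ c, ∑ e, (α a * β b * γ c * δ e) * (dl a e * dl b c) = sp α δ * sp β γ := by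
    unfold sp dl
    rw [Finset.sum_mul_sum]
    refine Finset.sum_congr rfl fun a _ => ?_
    refine Finset.sum_congr rfl fun b _ => ?_
    rw [Finset.sum_eq_single b]
    · rw [Finset.sum_eq_single a]
      · simp
        ring
      · intro e _ he
        rw [if_neg (Ne.symm he), zero_mul, mul_zero]
      · intro h
        exact absurd (Finset.mem_univ _) h
    · intro c _ hc
      simp [Ne.symm hc]
    · intro h
      exact absurd (Finset.mem_univ _) h
  have s4 : ∑ a, ∑ b, ∑ c, ∑ e, (α a * β b * γ c * δ e) * dl4 a b c e =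
      ∑ a, α a * β a * γ a * δ a := by
    unfold dl4
    refine Finset.sum_congr rfl fun a _ => ?_
    rw [Finset.sum_eq_single a]
    · rw [Finset.sum_eq_single a]
      · rw [Finset.sum_eq_single a]
        · simp
        · intro e _ he
          simp [Ne.symm he]
        · intro h
          exact absurd (Finset.mem_univ _) h
      · intro c _ hc
        simp [Ne.symm hc]
      · intro h
        exact absurd (Finset.mem_univ _) h
    · intro b _ hb
      simp [Ne.symm hb]
    · intro h
      exact absurd (Finset.mem_univ _) h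
  rw [← s1, ← s2, ← s3, ← s4]
  simp only [mul_add, Finset.sum_add_distrib, Finset.mul_sum]
  refine congrArg₂ (· + ·) (congrArg₂ (· + ·) (congrArg₂ (· + ·) ?_ ?_) ?_) ?_ <;>
  · refine Finset.sum_congr rfl fun a _ => Finset.sum_congr rfl fun b _ =>
      Finset.sum_congr rfl fun c _ => Finset.sum_congr rfl fun e _ => ?_
    ring

/-- the multiplicity of `x` in the list `a, b, c` -/
def mul3 (a b c x : ι) : ℕ :=
  (if x = a then 1 else 0) + (if x = b then 1 else 0) + (if x = c then 1 else 0)

theorem prod_mul3 (a b c : ι) (V : ι → ℝ) : ∏ x, V x ^ mul3 a b c x = V a * V b * V c := by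
  unfold mul3
  simp only [pow_add, Finset.prod_mul_distrib]
  simp [pow_ite]

theorem moment3 (a b c : ι) :
    ∫ V : ι → ℝ, V a * V b * V c ∂(Measure.pi fun _ => μ) =
      ∏ x, ∫ t, t ^ mul3 a b c x ∂μ := by
  rw [← integral_fintype_prod_eq_prod (ι := ι) (fun x (t : ℝ) => t ^ mul3 a b c x)]
  refine integral_congr_ae (Filter.Eventually.of_forall fun V => ?_)
  exact (prod_mul3 a b c V).symm

/-- all three equal -/
def dl3 (a b c : ι) : ℝ := if a = b ∧ b = c then 1 else 0

theorem zero_of3 (hμ : ∫ t, t ∂μ = 0) (a b c x : ι) (h : mul3 a b c x = 1) :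
    ∏ x, ∫ t, t ^ mul3 a b c x ∂μ = 0 := by
  refine Finset.prod_eq_zero (Finset.mem_univ x) ?_
  rw [h]
  simp only [pow_one]
  exact hμ

theorem wick3 (hμ : ∫ t, t ∂μ = 0) (a b c : ι) :
    ∫ V : ι → ℝ, V a * V b * V c ∂(Measure.pi fun _ => μ) = (∫ t, t ^ 3 ∂μ) * dl3 a b c := by
  rw [moment3]
  unfold dl3
  by_cases hab : a = b
  · subst hab
    by_cases hac : a = c
    · subst hac
      rw [Finset.prod_eq_single a]
      · have : mul3 a a a a = 3 := by simp [mul3]
        rw [this]
        simp
      · intro z _ hz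
        have : mul3 a a a z = 0 := by simp [mul3, hz]
        rw [this, m_zero]
      · intro hh
        exact absurd (Finset.mem_univ _) hh
    · rw [zero_of3 μ hμ a a c c (by simp [mul3, Ne.symm hac])]
      simp [hac]
  · by_cases hac : a = c
    · subst hac
      rw [zero_of3 μ hμ a b a b (by simp [mul3, Ne.symm hab])]
      simp [hab]
    · rw [zero_of3 μ hμ a b c a (by simp [mul3, hab, hac])]
      simp [hab]

theorem mono_int3 (hμ : ∀ n : ℕ, Integrable (fun t : ℝ => t ^ n) μ) (a b c : ι) :
    Integrable (fun V : ι → ℝ => V a * V b * V c) (Measure.pi fun _ => μ) := by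
  have h := Integrable.fintype_prod (μ := fun _ : ι => μ)
    (f := fun x (t : ℝ) => t ^ mul3 a b c x) (fun x => hμ _)
  refine h.congr (Filter.Eventually.of_forall fun V => ?_)
  exact prod_mul3 a b c V

theorem lf_three (α β γ : ι → ℝ) (V : ι → ℝ) :
    lf α V * lf β V * lf γ V = ∑ a, ∑ b, ∑ c, (α a * β b * γ c) * (V a * V b * V c) := by
  unfold lf
  rw [Finset.sum_mul_sum, Finset.sum_mul]
  refine Finset.sum_congr rfl fun a _ => ?_
  rw [Finset.sum_mul]
  refine Finset.sum_congr rfl fun b _ => ?_
  rw [Finset.mul_sum]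
  refine Finset.sum_congr rfl fun c _ => ?_
  ring

theorem lf_int3 (hi : ∀ n : ℕ, Integrable (fun t : ℝ => t ^ n) μ) (α β γ : ι → ℝ) :
    Integrable (fun V : ι → ℝ => lf α V * lf β V * lf γ V) (Measure.pi fun _ => μ) := by
  simp only [lf_three]
  refine integrable_finsetSum _ fun a _ => integrable_finsetSum _ fun b _ =>
    integrable_finsetSum _ fun c _ => ?_
  exact (mono_int3 μ hi a b c).const_mul _

theorem lf_wick3 (hμ : ∫ t, t ∂μ = 0) (hi : ∀ n : ℕ, Integrable (fun t : ℝ => t ^ n) μ)
    (α β γ : ι → ℝ) :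
    ∫ V : ι → ℝ, lf α V * lf β V * lf γ V ∂(Measure.pi fun _ => μ) =
      (∫ t, t ^ 3 ∂μ) * ∑ a, α a * β a * γ a := by
  have hI : ∀ a b c : ι, Integrable (fun V : ι → ℝ =>
      (α a * β b * γ c) * (V a * V b * V c)) (Measure.pi fun _ => μ) := fun a b c =>
    (mono_int3 μ hi a b c).const_mul _
  simp only [lf_three]
  rw [integral_finsetSum _ fun a _ => integrable_finsetSum _ fun b _ =>
    integrable_finsetSum _ fun c _ => hI a b c, Finset.mul_sum]
  refine Finset.sum_congr rfl fun a _ => ?_
  rw [integral_finsetSum _ fun b _ => integrable_finsetSum _ fun c _ => hI a b c]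
  have e1 : ∀ b : ι, ∫ V : ι → ℝ, ∑ c, (α a * β b * γ c) *
      (V a * V b * V c) ∂(Measure.pi fun _ => μ) =
      ∑ c, (α a * β b * γ c) * ((∫ t, t ^ 3 ∂μ) * dl3 a b c) := by
    intro b
    rw [integral_finsetSum _ fun c _ => hI a b c]
    refine Finset.sum_congr rfl fun c _ => ?_
    rw [integral_const_mul, wick3 μ hμ]
  rw [Finset.sum_congr rfl fun b _ => e1 b]
  unfold dl3
  rw [Finset.sum_eq_single a]
  · rw [Finset.sum_eq_single a]
    · simp
      ring
    · intro c _ hc
      simp [Ne.symm hc]
    · intro h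
      exact absurd (Finset.mem_univ _) h
  · intro b _ hb
    simp [Ne.symm hb]
  · intro h
    exact absurd (Finset.mem_univ _) h

end Pool.Agent.K3h27.EF
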