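import Pool.Agent.R493.MS.Main
import Pool.Agent.K3h27.EF.Wick

/-! The means of the third and of the fourth coefficient in a fixed volume, for general laws. -/

set_option autoImplicit false
set_option linter.unusedSectionVars false

open scoped BigOperators Topology
open MeasureTheory ProbabilityTheory Filter

namespace Pool.Agent.K3h27.EF

open Pool.Agent.H4R2.AE (T)
open Pool.Agent.H4R2.AE.Conc (PP int_mp)
open Pool.Agent.Y661.EX
open Pool.Agent.R493.MS (dl lf sp mono_int lf_four lf_int Cz Kz Gz_symm Gz_shift Gz_sum Gz_diag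
  Kz_shift Kz_diag sp_CC sp_CG sp_GC sp_GG lf_C lf_G ep_four S3 tau sum_shift ns_inv)

variable {d L : ℕ} [NeZero L]

/-- the third coefficient through linear forms -/
theorem ep_three (V : T d L → ℝ) : NS d L * ep V 3 =
    ∑ x, lf (Cz x) V * lf (Gz x) V * lf (Gz x) V := by
  have hN := (NS_pos (d := d) (L := L)).ne'
  have a0 : ∀ x, Al (phi V 1) x = -V x + ep V 1 := by
    intro x
    rw [al_phi, Finset.sum_range_one, phi_zero]
    simp only [zero_add, mul_one]
  have a1 : ∀ x, Al (phi V 2) x = -(V x * phi V 1 x) + ep V 1 * phi V 1 x + ep V 2 := by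
    intro x
    rw [al_phi, Finset.sum_range_succ, Finset.sum_range_one, phi_zero]
    ring
  have s1 : ∑ x, phi V 1 x = 0 := sum_phi V 0
  have s2 : ∑ x, phi V 2 x = 0 := sum_phi V 1
  have e3 : NS d L * ep V 3 = ∑ x, V x * phi V 2 x := by
    show NS d L * av (fun y => V y * phi V 2 y) = _
    unfold av
    rw [mul_div_cancel₀ _ hN]
  have b1 : ∑ x, V x * phi V 2 x = -∑ x, phi V 1 x * Al (phi V 2) x := by
    rw [al_symm]
    have : ∀ x, phi V 2 x * Al (phi V 1) x = -(V x * phi V 2 x) + ep V 1 * phi V 2 x := by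
      intro x
      rw [a0]
      ring
    rw [Finset.sum_congr rfl fun x _ => this x, Finset.sum_add_distrib, ← Finset.mul_sum, s2,
      mul_zero, add_zero, Finset.sum_neg_distrib, neg_neg]
  have hav : ep V 1 = av V := by
    show av (fun y => V y * phi V 0 y) = av V
    congr 1
    funext y
    rw [phi_zero, mul_one]
  have w1 : ∀ x, lf (Cz x) V = V x - ep V 1 := fun x => by rw [lf_C, hav]
  have b2 : ∀ x, phi V 1 x * Al (phi V 2) x =
      -(lf (Cz x) V * lf (Gz x) V * lf (Gz x) V) + ep V 2 * phi V 1 x := by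
    intro x
    rw [a1, w1, lf_G]
    ring
  rw [e3, b1, Finset.sum_congr rfl fun x _ => b2 x, Finset.sum_add_distrib, ← Finset.mul_sum, s1,
    mul_zero, add_zero, Finset.sum_neg_distrib, neg_neg]

theorem lf_C_shift (x : T d L) (V : T d L → ℝ) (c : ℝ) :
    lf (Cz x) (fun y => V y + c) = lf (Cz x) V := by
  rw [lf_C, lf_C]
  have : av (fun y => V y + c) = av V + c := by
    unfold av
    rw [Finset.sum_add_distrib, sum_const']
    have := (NS_pos (d := d) (L := L)).ne'
    field_simp
  rw [this]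
  ring

theorem lf_G_shift (x : T d L) (V : T d L → ℝ) (c : ℝ) :
    lf (Gz x) (fun y => V y + c) = lf (Gz x) V := by
  unfold lf
  simp only [mul_add, Finset.sum_add_distrib, ← Finset.sum_mul, Gz_sum, zero_mul, add_zero]

theorem ep_shift3 (V : T d L → ℝ) (c : ℝ) : ep (fun y => V y + c) 3 = ep V 3 := by
  have hN := (NS_pos (d := d) (L := L)).ne'
  apply mul_left_cancel₀ hN
  rw [ep_three, ep_three]
  simp only [lf_C_shift, lf_G_shift]

theorem ep_shift4 (V : T d L → ℝ) (c : ℝ) : ep (fun y => V y + c) 4 = ep V 4 := by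
  have hN := (NS_pos (d := d) (L := L)).ne'
  apply mul_left_cancel₀ hN
  rw [ep_four, ep_four]
  simp only [lf_C_shift, lf_G_shift]

variable (μ : Measure ℝ) [IsProbabilityMeasure μ]

/-- the centred law -/
noncomputable def cen : Measure ℝ := μ.map fun t => t + -(∫ s, s ∂μ)

theorem cen_prob : IsProbabilityMeasure (cen μ) :=
  Measure.isProbabilityMeasure_map (by fun_prop)

theorem aL_cen (n : ℕ) (h : ∀ (V : T d L → ℝ) (c : ℝ), ep (fun y => V y + c) n = ep V n) :
    aL (cen μ) d L n = aL μ d L n := by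
  have : IsProbabilityMeasure (cen μ) := cen_prob μ
  have hmp : MeasurePreserving (fun (V : T d L → ℝ) x => V x + -(∫ s, s ∂μ)) (PP (T d L) μ)
      (PP (T d L) (cen μ)) :=
    measurePreserving_pi (fun _ : T d L => μ) (fun _ : T d L => cen μ)
      (f := fun _ (t : ℝ) => t + -(∫ s, s ∂μ)) (fun _ => ⟨by fun_prop, rfl⟩)
  unfold aL
  have hm : Measurable (fun V : T d L → ℝ => ep V n) := by
    cases n with
    | zero => exact measurable_const
    | succ n => exact (pb_ep n).1.measurable
  rw [← int_mp hmp hm]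
  refine integral_congr_ae (Filter.Eventually.of_forall fun V => ?_)
  exact h V _

theorem cen_int (n : ℕ) : ∫ t, t ^ n ∂(cen μ) = ∫ t, (t - ∫ s, s ∂μ) ^ n ∂μ := by
  unfold cen
  rw [integral_map (by fun_prop) (by fun_prop)]
  rfl

theorem cen_integrable (hi : ∀ n : ℕ, Integrable (fun t : ℝ => t ^ n) μ) (n : ℕ) :
    Integrable (fun t : ℝ => t ^ n) (cen μ) := by
  unfold cen
  rw [integrable_map_measure (by fun_prop) (by fun_prop)]
  have e : ((fun t : ℝ => t ^ n) ∘ fun t => t + -(∫ s, s ∂μ)) =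
      fun t => ∑ m ∈ Finset.range (n + 1), t ^ m * (-(∫ s, s ∂μ)) ^ (n - m) * (n.choose m : ℝ) := by
    funext t
    simp only [Function.comp]
    rw [add_pow]
  rw [e]
  refine integrable_finsetSum _ fun m _ => ?_
  exact ((hi m).mul_const _).mul_const _

theorem cen_one (hi : ∀ n : ℕ, Integrable (fun t : ℝ => t ^ n) μ) : ∫ t, t ∂(cen μ) = 0 := by
  have h := cen_int μ 1
  simp only [pow_one] at h
  rw [h]
  have h1 := hi 1
  simp only [pow_one] at h1
  rw [integral_sub h1 (integrable_const _), integral_const]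
  simp

/-- the sum of the squares of the kernel -/
noncomputable def K0 (d L : ℕ) [NeZero L] : ℝ := Kz (0 : T d L) 0

/-- the diagonal of the kernel -/
noncomputable def G0 (d L : ℕ) [NeZero L] : ℝ := Gz (0 : T d L) 0

theorem mean_three0 (hμ : ∫ t, t ∂μ = 0) (hi : ∀ n : ℕ, Integrable (fun t : ℝ => t ^ n) μ) :
    aL μ d L 3 = (∫ t, t ^ 3 ∂μ) * (G0 d L ^ 2 - K0 d L / NS d L) := by
  have hN := (NS_pos (d := d) (L := L)).ne'
  have h0 : NS d L * aL μ d L 3 = ∫ V : T d L → ℝ, NS d L * ep V 3 ∂(PP (T d L) μ) := by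
    rw [integral_const_mul]
    rfl
  have E1 : ∀ x : T d L, ∫ V : T d L → ℝ,
      lf (Cz x) V * lf (Gz x) V * lf (Gz x) V ∂(PP (T d L) μ) =
        (∫ t, t ^ 3 ∂μ) * (G0 d L ^ 2 - K0 d L / NS d L) := by
    intro x
    refine (lf_wick3 μ hμ hi _ _ _).trans ?_
    congr 1
    have : ∀ a : T d L, Cz x a * Gz x a * Gz x a =
        (if x = a then Gz x a * Gz x a else 0) - 1 / NS d L * (Gz x a * Gz x a) := by
      intro a
      unfold Cz
      by_cases h : x = a
      · rw [if_pos h, if_pos h]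
        ring
      · rw [if_neg h, if_neg h]
        ring
    rw [Finset.sum_congr rfl fun a _ => this a, Finset.sum_sub_distrib, ← Finset.mul_sum,
      Finset.sum_ite_eq, if_pos (Finset.mem_univ x)]
    have e1 : ∑ a : T d L, Gz x a * Gz x a = K0 d L := Kz_diag x
    rw [e1, Gz_diag x]
    unfold G0
    ring
  have h1 : ∫ V : T d L → ℝ, NS d L * ep V 3 ∂(PP (T d L) μ) =
      NS d L * ((∫ t, t ^ 3 ∂μ) * (G0 d L ^ 2 - K0 d L / NS d L)) := by
    simp only [ep_three]
    rw [integral_finsetSum]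
    · rw [Finset.sum_congr rfl fun x _ => E1 x, sum_const']
    · intro x _
      exact lf_int3 μ hi _ _ _
  rw [h1] at h0
  exact mul_left_cancel₀ hN h0

/-- the kernel `C G` -/
theorem CG_eq (x z : T d L) : Cz x z * Gz x z =
    (if x = z then G0 d L else 0) - 1 / NS d L * Gz x z := by
  unfold Cz
  by_cases h : x = z
  · subst h
    rw [if_pos rfl, if_pos rfl, Gz_diag]
    unfold G0
    ring
  · rw [if_neg h, if_neg h]
    ring

theorem sum_CGCG (x y : T d L) : ∑ z, Cz x z * Gz x z * Cz y z * Gz y z =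
    (if x = y then G0 d L ^ 2 else 0) - 2 * G0 d L / NS d L * Gz x y +
      1 / NS d L ^ 2 * Kz x y := by
  have h : ∀ z : T d L, Cz x z * Gz x z * Cz y z * Gz y z =
      (if x = z then (if y = x then G0 d L ^ 2 else 0) else 0) -
        (if x = z then G0 d L * (1 / NS d L * Gz y z) else 0) -
        (if y = z then G0 d L * (1 / NS d L * Gz x z) else 0) +
        1 / NS d L ^ 2 * (Gz x z * Gz y z) := by
    intro z
    have e : Cz x z * Gz x z * Cz y z * Gz y z = (Cz x z * Gz x z) * (Cz y z * Gz y z) := by ring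
    rw [e, CG_eq, CG_eq]
    by_cases h1 : x = z
    · subst h1
      by_cases h2 : y = x
      · subst h2
        simp only [if_true]
        ring
      · simp only [if_true, h2, if_false]
        ring
    · by_cases h2 : y = z
      · subst h2
        simp only [h1, if_true, if_false]
        ring
      · simp only [h1, h2, if_false]
        ring
  rw [Finset.sum_congr rfl fun z _ => h z, Finset.sum_add_distrib, Finset.sum_sub_distrib,
    Finset.sum_sub_distrib, Finset.sum_ite_eq, Finset.sum_ite_eq, Finset.sum_ite_eq,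
    if_pos (Finset.mem_univ x), if_pos (Finset.mem_univ x), if_pos (Finset.mem_univ y),
    ← Finset.mul_sum]
  have e1 : ∑ a : T d L, Gz x a * Gz y a = Kz x y := rfl
  rw [e1, Gz_symm y x]
  by_cases h2 : x = y
  · subst h2
    simp only [if_true]
    ring
  · rw [if_neg h2, if_neg (Ne.symm h2)]
    ring

theorem sum_CGG (y : T d L) : ∑ x, ∑ z, Cz x z * Gz x z * Gz y z * Gz y z =
    G0 d L * K0 d L := by
  rw [Finset.sum_comm]
  have h : ∀ z : T d L, ∑ x, Cz x z * Gz x z * Gz y z * Gz y z =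
      G0 d L * (Gz y z * Gz y z) := by
    intro z
    have h1 : ∀ x : T d L, Cz x z * Gz x z * Gz y z * Gz y z =
        (if x = z then G0 d L * (Gz y z * Gz y z) else 0) -
          (1 / NS d L * (Gz y z * Gz y z)) * Gz z x := by
      intro x
      rw [CG_eq, Gz_symm x z]
      by_cases h1 : x = z
      · rw [if_pos h1, if_pos h1]
        ring
      · rw [if_neg h1, if_neg h1]
        ring
    rw [Finset.sum_congr rfl fun x _ => h1 x, Finset.sum_sub_distrib, ← Finset.mul_sum, Gz_sum,
      Finset.sum_ite_eq', if_pos (Finset.mem_univ z)]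
    ring
  rw [Finset.sum_congr rfl fun z _ => h z, ← Finset.mul_sum]
  congr 1
  exact Kz_diag y

theorem mean_four0 (hμ : ∫ t, t ∂μ = 0) (hi : ∀ n : ℕ, Integrable (fun t : ℝ => t ^ n) μ) :
    aL μ d L 4 = (∫ t, t ^ 2 ∂μ) ^ 2 * (-S3 d L + 3 * tau d L / NS d L) -
      cu4 μ * (G0 d L ^ 3 - 3 * (G0 d L * (K0 d L / NS d L)) + tau d L / NS d L / NS d L) := by
  have hN := (NS_pos (d := d) (L := L)).ne'
  obtain ⟨v, hv⟩ : ∃ v, v = (∫ t, t ^ 2 ∂μ) ^ 2 := ⟨_, rfl⟩
  obtain ⟨q, hq⟩ : ∃ q, q = cu4 μ := ⟨_, rfl⟩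
  have I1 : ∀ x y : T d L, Integrable (fun V : T d L → ℝ =>
      lf (Cz x) V * lf (Gz x) V * lf (Cz y) V * lf (Gz y) V) (PP (T d L) μ) := fun x y =>
    lf_int μ hi _ _ _ _
  have I2 : ∀ x y : T d L, Integrable (fun V : T d L → ℝ =>
      lf (Cz x) V * lf (Gz x) V * lf (Gz y) V * lf (Gz y) V) (PP (T d L) μ) := fun x y =>
    lf_int μ hi _ _ _ _
  have E1 : ∀ x y : T d L, ∫ V : T d L → ℝ,
      lf (Cz x) V * lf (Gz x) V * lf (Cz y) V * lf (Gz y) V ∂(PP (T d L) μ) =
        v * (G0 d L * G0 d L + Cz x y * Kz x y + Gz x y * Gz x y) +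
        q * ((if x = y then G0 d L ^ 2 else 0) - 2 * G0 d L / NS d L * Gz x y +
          1 / NS d L ^ 2 * Kz x y) := by
    intro x y
    refine (lf_wick μ hμ hi _ _ _ _).trans ?_
    rw [sp_CG, sp_CG, sp_CC, sp_GG, sp_CG, sp_GC, Gz_diag x, Gz_diag y, ← hv, ← hq, sum_CGCG]
    rfl
  have E2 : ∀ x y : T d L, ∫ V : T d L → ℝ,
      lf (Cz x) V * lf (Gz x) V * lf (Gz y) V * lf (Gz y) V ∂(PP (T d L) μ) =
        v * (G0 d L * K0 d L + 2 * (Gz x y * Kz x y)) +
        q * ∑ z, Cz x z * Gz x z * Gz y z * Gz y z := by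
    intro x y
    refine (lf_wick μ hμ hi _ _ _ _).trans ?_
    rw [sp_CG, sp_CG, sp_GG, sp_GG, Gz_diag x, Kz_diag y, ← hv, ← hq]
    unfold G0 K0
    ring
  have h0 : NS d L * aL μ d L 4 = ∫ V : T d L → ℝ, NS d L * ep V 4 ∂(PP (T d L) μ) := by
    rw [integral_const_mul]
    rfl
  have h1 : ∫ V : T d L → ℝ, NS d L * ep V 4 ∂(PP (T d L) μ) =
      -(∑ x : T d L, ∑ y : T d L, Gz x y * (v * (G0 d L * G0 d L + Cz x y * Kz x y +
          Gz x y * Gz x y) + q * ((if x = y then G0 d L ^ 2 else 0) -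
          2 * G0 d L / NS d L * Gz x y + 1 / NS d L ^ 2 * Kz x y))) +
        1 / NS d L * ∑ x : T d L, ∑ y : T d L, (v * (G0 d L * K0 d L + 2 * (Gz x y * Kz x y)) +
          q * ∑ z, Cz x z * Gz x z * Gz y z * Gz y z) := by
    simp only [ep_four]
    rw [integral_add, integral_neg, integral_const_mul, integral_finsetSum, integral_finsetSum]
    · congr 1
      · congr 1
        refine Finset.sum_congr rfl fun x _ => ?_
        rw [integral_finsetSum]
        · refine Finset.sum_congr rfl fun y _ => ?_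
          rw [integral_const_mul, E1]
        · intro y _
          exact (I1 x y).const_mul _
      · congr 1
        refine Finset.sum_congr rfl fun x _ => ?_
        rw [integral_finsetSum]
        · exact Finset.sum_congr rfl fun y _ => E2 x y
        · intro y _
          exact I2 x y
    · intro x _
      exact integrable_finsetSum _ fun y _ => I2 x y
    · intro x _
      exact integrable_finsetSum _ fun y _ => (I1 x y).const_mul _
    · exact (integrable_finsetSum _ fun x _ => integrable_finsetSum _ fun y _ =>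
        (I1 x y).const_mul _).neg
    · exact (integrable_finsetSum _ fun x _ => integrable_finsetSum _ fun y _ => I2 x y).const_mul _
  have t1 : ∑ x : T d L, ∑ y : T d L, Gz x y * Kz x y = NS d L * tau d L :=
    sum_shift (fun x y => Gz x y * Kz x y) (fun x y a => by rw [Gz_shift, Kz_shift])
  have t2 : ∑ x : T d L, ∑ y : T d L, Gz x y ^ 3 = NS d L * S3 d L :=
    sum_shift (fun x y => Gz x y ^ 3) (fun x y a => by rw [Gz_shift])
  have t3 : ∑ x : T d L, ∑ y : T d L, Gz x y * (Cz x y * Kz x y) =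
      NS d L * (G0 d L * K0 d L) - tau d L := by
    have : ∀ x y : T d L, Gz x y * (Cz x y * Kz x y) =
        (if x = y then G0 d L * K0 d L else 0) - 1 / NS d L * (Gz x y * Kz x y) := by
      intro x y
      unfold Cz
      by_cases h : x = y
      · subst h
        rw [if_pos rfl, if_pos rfl, Gz_diag, Kz_diag]
        unfold G0 K0
        ring
      · rw [if_neg h, if_neg h]
        ring
    simp only [this, Finset.sum_sub_distrib, ← Finset.mul_sum, t1, Finset.sum_ite_eq,
      Finset.mem_univ, if_true, sum_const']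
    field_simp
  have t4 : ∑ x : T d L, ∑ y : T d L, Gz x y = 0 := by
    simp only [Gz_sum, Finset.sum_const_zero]
  have t5 : ∑ x : T d L, ∑ y : T d L, Gz x y * Gz x y = NS d L * K0 d L :=
    sum_shift (fun x y => Gz x y * Gz x y) (fun x y a => by rw [Gz_shift])
  have t6 : ∑ x : T d L, ∑ y : T d L, Gz x y * (if x = y then G0 d L ^ 2 else 0) =
      NS d L * G0 d L ^ 3 := by
    have : ∀ x y : T d L, Gz x y * (if x = y then G0 d L ^ 2 else 0) =
        if x = y then G0 d L ^ 3 else 0 := by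
      intro x y
      by_cases h : x = y
      · subst h
        rw [if_pos rfl, if_pos rfl, Gz_diag]
        unfold G0
        ring
      · rw [if_neg h, if_neg h, mul_zero]
    simp only [this, Finset.sum_ite_eq, Finset.mem_univ, if_true, sum_const']
  have r1 : ∑ x : T d L, ∑ y : T d L, Gz x y * (v * (G0 d L * G0 d L + Cz x y * Kz x y +
          Gz x y * Gz x y) + q * ((if x = y then G0 d L ^ 2 else 0) -
          2 * G0 d L / NS d L * Gz x y + 1 / NS d L ^ 2 * Kz x y)) =
      v * (NS d L * (G0 d L * K0 d L) - tau d L + NS d L * S3 d L) +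
      q * (NS d L * G0 d L ^ 3 - 2 * G0 d L / NS d L * (NS d L * K0 d L) +
        1 / NS d L ^ 2 * (NS d L * tau d L)) := by
    have : ∀ x y : T d L, Gz x y * (v * (G0 d L * G0 d L + Cz x y * Kz x y +
          Gz x y * Gz x y) + q * ((if x = y then G0 d L ^ 2 else 0) -
          2 * G0 d L / NS d L * Gz x y + 1 / NS d L ^ 2 * Kz x y)) =
        (v * (G0 d L * G0 d L)) * Gz x y + v * (Gz x y * (Cz x y * Kz x y)) + v * Gz x y ^ 3 +
        q * (Gz x y * (if x = y then G0 d L ^ 2 else 0)) -
        (q * (2 * G0 d L / NS d L)) * (Gz x y * Gz x y) +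
        (q * (1 / NS d L ^ 2)) * (Gz x y * Kz x y) := by
      intro x y
      ring
    simp only [this, Finset.sum_add_distrib, Finset.sum_sub_distrib, ← Finset.mul_sum]
    rw [t4, t3, t2, t6, t5, t1]
    ring
  have r2 : ∑ x : T d L, ∑ y : T d L, (v * (G0 d L * K0 d L + 2 * (Gz x y * Kz x y)) +
          q * ∑ z, Cz x z * Gz x z * Gz y z * Gz y z) =
      v * (NS d L * (NS d L * (G0 d L * K0 d L)) + 2 * (NS d L * tau d L)) +
      q * (NS d L * (G0 d L * K0 d L)) := by
    have t7 : ∑ x : T d L, ∑ y : T d L, ∑ z, Cz x z * Gz x z * Gz y z * Gz y z =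
        NS d L * (G0 d L * K0 d L) := by
      rw [Finset.sum_comm, Finset.sum_congr rfl fun y _ => sum_CGG y, sum_const']
    simp only [Finset.sum_add_distrib, ← Finset.mul_sum, mul_add, t1, t7, sum_const']
    ring
  rw [h1, r1, r2] at h0
  rw [← hv, ← hq]
  have h2 : NS d L * aL μ d L 4 = NS d L * (v * (-S3 d L + 3 * tau d L / NS d L) -
      q * (G0 d L ^ 3 - 3 * (G0 d L * (K0 d L / NS d L)) + tau d L / NS d L / NS d L)) := by
    rw [h0]
    field_simp
    ring
  exact mul_left_cancel₀ hN h2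

end Pool.Agent.K3h27.EF
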