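import Pool.Agent.Y661.EX.BddA
import Pool.Agent.R493.MS.Edge
import Pool.Agent.K3h27.EF.Mean

/-! The third and the fourth coefficient of the effective edges, for general laws. -/

set_option autoImplicit false
set_option linter.unusedSectionVars false

open scoped BigOperators ENNReal Topology
open MeasureTheory ProbabilityTheory Filter

namespace Pool.Agent.K3h27.EF

open Pool.Agent.H4R2.AE (T)
open Pool.Agent.H4R2.AE.Conc (PP int_mp)
open Pool.Agent.Y661.EX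
open Pool.Agent.Y661.ED (Gd)
open Pool.Agent.R493.MS (Kz Gz_diag Kz_diag S3 tau S3_lim tau_lim Sun)

theorem Gdiag_eq (d L : ℕ) [NeZero L] : Gdiag d L = G0 d L := by
  unfold Gdiag av G0
  rw [Finset.sum_congr rfl fun z _ => Gz_diag z, sum_const']
  have := (NS_pos (d := d) (L := L)).ne'
  field_simp

theorem G0_lim (d : ℕ) (hd : 4 ≤ d) : Tendsto (fun n : ℕ => G0 d (n + 1)) atTop (𝓝 (Gd d)) := by
  obtain ⟨K, hK, hE⟩ := heG d hd
  have h := lim_all (gaussianReal 0 1) gauss_mom d hd 2 K hK (hE 2) 1 (by omega)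
  have h1 : ∀ L : ℕ, aL (gaussianReal 0 1) d (L + 1) (1 + 1) = -G0 d (L + 1) := by
    intro L
    have h2 := aL_two (d := d) (L := L + 1) (gaussianReal 0 1) gauss_mom
    have e1 : ∫ t, t ∂(gaussianReal 0 1) = 0 := integral_id_gaussianReal
    have e2 : ∫ t, t ^ 2 ∂(gaussianReal 0 1) = 1 := by
      have h3 := variance_fun_id_gaussianReal (μ := 0) (v := 1)
      rw [variance_eq_integral measurable_id'.aemeasurable] at h3
      simpa [integral_id_gaussianReal] using h3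
    rw [e1, e2, Gdiag_eq] at h2
    rw [h2]
    ring
  simp only [h1] at h
  have h3 := h.neg
  simp only [neg_neg] at h3
  have e : bco (gaussianReal 0 1) d (1 + 1) = -Gd d := bco_two d hd
  rwa [e, neg_neg] at h3

theorem K0_nonneg (d L : ℕ) [NeZero L] : 0 ≤ K0 d L := by
  unfold K0 Kz
  exact Finset.sum_nonneg fun a _ => mul_self_nonneg _

theorem K0_lim (d : ℕ) (hd : 4 ≤ d) :
    Tendsto (fun n : ℕ => K0 d (n + 1) / NS d (n + 1)) atTop (𝓝 0) := by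
  obtain ⟨C, hC, h⟩ := Gz_pow d hd 1 one_pos
  have h1 : ∀ n : ℕ, |K0 d (n + 1) / NS d (n + 1)| ≤ C * (1 / ((n : ℝ) + 1)) := by
    intro n
    have hL : (0 : ℝ) < ((n + 1 : ℕ) : ℝ) := by positivity
    have hL1 : (1 : ℝ) ≤ ((n + 1 : ℕ) : ℝ) := by
      push_cast
      have : (0 : ℝ) ≤ n := Nat.cast_nonneg n
      linarith
    have hN := NS_pos (d := d) (L := n + 1)
    have h3 := h (n + 1) (0 : T d (n + 1))
    rw [Real.rpow_one] at h3
    have h4 : (((n + 1 : ℕ) : ℝ)) ^ 2 ≤ NS d (n + 1) := by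
      rw [NS_eq]
      exact pow_le_pow_right₀ hL1 (by omega)
    have h5 : K0 d (n + 1) ≤ C * ((n + 1 : ℕ) : ℝ) := by
      refine le_trans (le_of_eq ?_) h3
      unfold K0 Kz
      exact Finset.sum_congr rfl fun a _ => (sq _).symm
    rw [abs_div, abs_of_nonneg (K0_nonneg d (n + 1)), abs_of_pos hN, div_le_iff₀ hN]
    have e1 : (1 : ℝ) / ((n : ℝ) + 1) = 1 / ((n + 1 : ℕ) : ℝ) := by push_cast; rfl
    rw [e1]
    obtain ⟨l, hl⟩ : ∃ l : ℝ, l = ((n + 1 : ℕ) : ℝ) := ⟨_, rfl⟩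
    rw [← hl] at hL hL1 h4 h5 ⊢
    have hC0 : 0 ≤ C := by linarith
    calc K0 d (n + 1) ≤ C * l := h5
      _ = C * (1 / l) * l ^ 2 := by field_simp
      _ ≤ C * (1 / l) * NS d (n + 1) := by gcongr
  have h2 : Tendsto (fun n : ℕ => C * (1 / ((n : ℝ) + 1))) atTop (𝓝 0) := by
    have := (tendsto_one_div_add_atTop_nhds_zero_nat (𝕜 := ℝ)).const_mul C
    rwa [mul_zero] at this
  exact squeeze_zero_norm h1 h2

theorem tau_lim' (d : ℕ) (hd : 4 ≤ d) :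
    Tendsto (fun n : ℕ => tau d (n + 1) / NS d (n + 1)) atTop (𝓝 0) := by
  have h := (tau_lim d hd).const_mul (1 / 3)
  rw [mul_zero] at h
  refine h.congr fun n => ?_
  ring

theorem tau_lim2 (d : ℕ) (hd : 4 ≤ d) :
    Tendsto (fun n : ℕ => tau d (n + 1) / NS d (n + 1) / NS d (n + 1)) atTop (𝓝 0) := by
  have h := (tau_lim' d hd).norm
  rw [norm_zero] at h
  refine squeeze_zero_norm (fun n => ?_) h
  have hL1 : (1 : ℝ) ≤ ((n + 1 : ℕ) : ℝ) := by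
    push_cast
    have : (0 : ℝ) ≤ n := Nat.cast_nonneg n
    linarith
  have h4 : 1 ≤ NS d (n + 1) := by
    rw [NS_eq]
    exact one_le_pow₀ hL1
  rw [norm_div _ (NS d (n + 1)), Real.norm_eq_abs (NS d (n + 1)), abs_of_pos (by linarith)]
  exact div_le_self (norm_nonneg _) h4

variable (μ : Measure ℝ) [IsProbabilityMeasure μ]
  (hμ : ∀ n : ℕ, Integrable (fun t : ℝ => |t| ^ n) μ)

include hμ

theorem pow_int (n : ℕ) : Integrable (fun t : ℝ => t ^ n) μ := by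
  refine (hμ n).mono (by fun_prop) (Eventually.of_forall fun t => ?_)
  simp

theorem bco_three (d : ℕ) (hd : 4 ≤ d) (K : ℝ) (hK : 0 ≤ K) (hE : HE d μ K 3) :
    bco μ d 3 = (∫ t, (t - ∫ s, s ∂μ) ^ 3 ∂μ) * Gd d ^ 2 := by
  have hi := pow_int μ hμ
  have : IsProbabilityMeasure (cen μ) := cen_prob μ
  have h1 := lim_all μ hμ d hd 3 K hK hE 2 (by omega)
  have h2 : ∀ L : ℕ, aL μ d (L + 1) (2 + 1) = (∫ t, (t - ∫ s, s ∂μ) ^ 3 ∂μ) *
      (G0 d (L + 1) ^ 2 - K0 d (L + 1) / NS d (L + 1)) := by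
    intro L
    rw [← cen_int, ← mean_three0 (cen μ) (cen_one μ hi) (cen_integrable μ hi)]
    exact (aL_cen μ 3 ep_shift3).symm
  simp only [h2] at h1
  have h3 := (((G0_lim d hd).pow 2).sub (K0_lim d hd)).const_mul (∫ t, (t - ∫ s, s ∂μ) ^ 3 ∂μ)
  rw [sub_zero] at h3
  exact tendsto_nhds_unique h1 h3

theorem bco_four (d : ℕ) (hd : 4 ≤ d) (K : ℝ) (hK : 0 ≤ K) (hE : HE d μ K 4) :
    bco μ d 4 = -((∫ t, (t - ∫ s, s ∂μ) ^ 2 ∂μ) ^ 2 * Sun d +
      ((∫ t, (t - ∫ s, s ∂μ) ^ 4 ∂μ) - 3 * (∫ t, (t - ∫ s, s ∂μ) ^ 2 ∂μ) ^ 2) * Gd d ^ 3) := by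
  have hi := pow_int μ hμ
  have : IsProbabilityMeasure (cen μ) := cen_prob μ
  have h1 := lim_all μ hμ d hd 4 K hK hE 3 (by omega)
  obtain ⟨q, hq⟩ : ∃ q, q = (∫ t, (t - ∫ s, s ∂μ) ^ 4 ∂μ) -
    3 * (∫ t, (t - ∫ s, s ∂μ) ^ 2 ∂μ) ^ 2 := ⟨_, rfl⟩
  have h2 : ∀ L : ℕ, aL μ d (L + 1) (3 + 1) = (∫ t, (t - ∫ s, s ∂μ) ^ 2 ∂μ) ^ 2 *
      (-S3 d (L + 1) + 3 * tau d (L + 1) / NS d (L + 1)) -
      q * (G0 d (L + 1) ^ 3 - 3 * (G0 d (L + 1) * (K0 d (L + 1) / NS d (L + 1))) +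
        tau d (L + 1) / NS d (L + 1) / NS d (L + 1)) := by
    intro L
    have e1 : q = cu4 (cen μ) := by
      rw [hq]
      unfold cu4
      rw [cen_int, cen_int]
    rw [e1, ← cen_int, ← mean_four0 (cen μ) (cen_one μ hi) (cen_integrable μ hi)]
    exact (aL_cen μ 4 ep_shift4).symm
  simp only [h2] at h1
  have h3 := (((S3_lim hd).neg.add (tau_lim d hd)).const_mul
    ((∫ t, (t - ∫ s, s ∂μ) ^ 2 ∂μ) ^ 2)).sub
    (((((G0_lim d hd).pow 3).sub (((G0_lim d hd).mul (K0_lim d hd)).const_mul 3)).add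
      (tau_lim2 d hd)).const_mul q)
  have h4 := tendsto_nhds_unique h1 h3
  rw [h4, ← hq]
  ring

end Pool.Agent.K3h27.EF
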