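import Pool.Agent.K3h27.EF.Scale

/-! Laws with bounded density on `[-b, b]`: the expansion of the effective edges. -/

set_option autoImplicit false
set_option linter.unusedSectionVars false

open scoped BigOperators ENNReal Topology
open MeasureTheory ProbabilityTheory Filter

namespace Pool.Agent.K3h27.EF

open Pool.Agent.H4R2.AE.Conc (PP int_mp)
open Pool.Agent.Y661.EX
open Pool.Agent.Y661.ED (Gd)
open Pool.Agent.R493.MS (Sun)
open Pool.Agent.Results.MP_28b024_mp.MobilityEdgeScale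

/-- the expansion on `[-1,1]`, with the coefficients `cb` (from `Pool.Agent.Y661.EX.mainB`) -/
theorem expand1 (d : ℕ) (hd : 4 ≤ d) (M : ℝ) (hM : 0 < M) (η : ℝ) (hη : 0 < η) (hη1 : η ≤ 1) :
    ∃ k K : ℝ, 0 < k ∧ 0 < K ∧
      ∀ (μ : Measure ℝ) [IsProbabilityMeasure μ],
      μ (Set.Icc (-1) 1)ᶜ = 0 → μ ≤ ENNReal.ofReal M • (volume : Measure ℝ) →
      ∃ Em Ep : ℝ → ℝ,
      (∀ N : ℕ, ∃ C : ℝ, ∀ lam : ℝ, 0 < lam → lam ≤ k →
        |Em lam - ∑ n ∈ Finset.range (N + 1), cb d μ n * lam ^ n| ≤ C * lam ^ (N + 1) ∧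
        |Ep lam - (4 * d - ∑ n ∈ Finset.range (N + 1), cb d μ n * (-lam) ^ n)| ≤
          C * lam ^ (N + 1)) ∧
      ∀ lam : ℝ, 0 < lam → lam ≤ k →
      Flat d η μ k K lam (Em lam) ∧ Flat d η (μ.map fun t => -t) k K lam (4 * d - Ep lam) ∧
      (∀ κ : ℝ, Real.exp (-(k * sc d lam)) ≤ κ → κ ≤ 1 →
        ∀ᵐ ω ∂(Measure.infinitePi fun _ : Fin d → ℤ => μ),
          Localized (H lam ω) {E | E ≤ Em lam - κ ∨ Ep lam + κ ≤ E}
            (k * Real.sqrt κ / Real.log (2 / (κ * lam)))) ∧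
      Spread d μ k K lam (Em lam) (Ep lam) := by
  obtain ⟨k, K, hk, hK, h⟩ := result d hd M hM η hη hη1
  refine ⟨k, K, hk, hK, ?_⟩
  intro μ _ hs hD
  have hm : IsProbabilityMeasure (μ.map fun t : ℝ => -t) :=
    Measure.isProbabilityMeasure_map measurable_neg.aemeasurable
  have h' := h μ hs hD
  choose! Em Ep h1 h2 h3 h4 h5 h6 using h'
  refine ⟨Em, Ep, ?_, fun lam hl hlk => ⟨h3 lam hl hlk, h4 lam hl hlk, h5 lam hl hlk,
    h6 lam hl hlk⟩⟩
  intro N
  obtain ⟨C1, hC1, hc1⟩ := expB μ (bdd_mom μ hs) d hd k K hk hK.le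
    (fun lam hl hlk => ⟨Em lam, flatB_of d η μ k K lam (Em lam) (h3 lam hl hlk)⟩) N
  obtain ⟨C2, hC2, hc2⟩ := expB (μ.map fun t => -t) (bdd_mom _ (supp_neg μ hs)) d hd k K hk hK.le
    (fun lam hl hlk => ⟨4 * d - Ep lam, flatB_of d η _ k K lam (4 * d - Ep lam)
      (h4 lam hl hlk)⟩) N
  refine ⟨C1 + C2, fun lam hl hlk => ⟨?_, ?_⟩⟩
  · have q := hc1 lam hl hlk (Em lam) ((h1 lam hl hlk).trans hlk)
      (flatB_of d η μ k K lam (Em lam) (h3 lam hl hlk))
    have q2 : 0 ≤ C2 * lam ^ (N + 1) := by positivity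
    linarith
  · have q := hc2 lam hl hlk (4 * d - Ep lam) (by
      rw [abs_sub_comm]
      exact (h2 lam hl hlk).trans hlk)
      (flatB_of d η _ k K lam (4 * d - Ep lam) (h4 lam hl hlk))
    have q2 : 0 ≤ C1 * lam ^ (N + 1) := by positivity
    have e1 : ∑ n ∈ Finset.range (N + 1), cb d (μ.map fun t => -t) n * lam ^ n =
        ∑ n ∈ Finset.range (N + 1), cb d μ n * (-lam) ^ n := by
      refine Finset.sum_congr rfl fun n _ => ?_
      rw [cb_neg d hd μ hs M hM hD, neg_pow lam]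
      ring
    rw [e1] at q
    have e2 : Ep lam - (4 * d - ∑ n ∈ Finset.range (N + 1), cb d μ n * (-lam) ^ n) =
        -((4 * d - Ep lam) - ∑ n ∈ Finset.range (N + 1), cb d μ n * (-lam) ^ n) := by ring
    rw [e2, abs_neg]
    linarith

/-- the coefficients for a law with support in `[-b, b]` -/
noncomputable def co (d : ℕ) (b : ℝ) (μ : Measure ℝ) (n : ℕ) : ℝ := b ^ n * cb d (scl b⁻¹ μ) n

theorem dens_pos (μ : Measure ℝ) (M' : ℝ) (h : μ ≤ ENNReal.ofReal M' • (volume : Measure ℝ)) :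
    ∃ M : ℝ, 0 < M ∧ μ ≤ ENNReal.ofReal M • (volume : Measure ℝ) := by
  refine ⟨max M' 1, by positivity, h.trans ?_⟩
  have h1 : ENNReal.ofReal M' ≤ ENNReal.ofReal (max M' 1) :=
    ENNReal.ofReal_le_ofReal (le_max_left _ _)
  intro s
  simp only [Measure.smul_apply, smul_eq_mul]
  gcongr

theorem coefs (d : ℕ) (hd : 4 ≤ d) (b : ℝ) (hb : 0 < b) (μ : Measure ℝ) [IsProbabilityMeasure μ]
    (hs : μ (Set.Icc (-b) b)ᶜ = 0) (hD : ∃ D : ℝ, μ ≤ ENNReal.ofReal D • (volume : Measure ℝ)) :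
    co d b μ 0 = 0 ∧ co d b μ 1 = ∫ t, t ∂μ ∧
    co d b μ 2 = -((∫ t, (t - ∫ s, s ∂μ) ^ 2 ∂μ) * Gd d) ∧
    co d b μ 3 = (∫ t, (t - ∫ s, s ∂μ) ^ 3 ∂μ) * Gd d ^ 2 ∧
    co d b μ 4 = -((∫ t, (t - ∫ s, s ∂μ) ^ 2 ∂μ) ^ 2 * Sun d +
      ((∫ t, (t - ∫ s, s ∂μ) ^ 4 ∂μ) - 3 * (∫ t, (t - ∫ s, s ∂μ) ^ 2 ∂μ) ^ 2) * Gd d ^ 3) ∧
    ∀ n, (∀ L, Integrable (fun V => ep V n) (Measure.pi fun _ : T d (L + 1) => μ)) ∧
      Tendsto (fun L : ℕ => ∫ V, ep V n ∂(Measure.pi fun _ : T d (L + 1) => μ)) atTop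
        (𝓝 (co d b μ n)) := by
  obtain ⟨D, hD⟩ := hD
  obtain ⟨M, hM, hD⟩ := dens_pos μ D hD
  obtain ⟨ν, hν⟩ : ∃ ν, ν = scl b⁻¹ μ := ⟨_, rfl⟩
  have hp : IsProbabilityMeasure ν := by rw [hν]; exact scl_prob μ b⁻¹
  have hs' : ν (Set.Icc (-1) 1)ᶜ = 0 := by rw [hν]; exact scl_supp μ b hb hs
  have hD' : ν ≤ ENNReal.ofReal (M * b) • (volume : Measure ℝ) := by
    rw [hν]; exact scl_dens μ b hb M hD
  have hμν : μ = scl b ν := by rw [hν]; exact (scl_inv μ b hb.ne').symm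
  obtain ⟨K, hK, hE⟩ := heB d hd ν hs' (M * b) (by positivity) hD'
  have hmo := bdd_mom ν hs'
  have c0 : ∀ n, 1 ≤ n → co d b μ n = b ^ n * bco ν d n := by
    intro n hn
    unfold co cb
    rw [if_neg (by omega), ← hν]
  have m1 : ∫ t, t ∂μ = b * ∫ t, t ∂ν := by
    have h := scl_mean ν b
    rw [← hμν] at h
    exact h
  have mn : ∀ n : ℕ, ∫ t, (t - ∫ s, s ∂μ) ^ n ∂μ = b ^ n * ∫ t, (t - ∫ s, s ∂ν) ^ n ∂ν := by
    intro n
    have h := scl_cm ν b n
    rw [← hμν] at h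
    exact h
  refine ⟨?_, ?_, ?_, ?_, ?_, fun n => ⟨fun L => ?_, ?_⟩⟩
  · unfold co cb
    simp
  · rw [c0 1 le_rfl, m1, pow_one]
    have h := cb_one ν hmo d hd K hK (hE 1)
    unfold cb at h
    rw [if_neg one_ne_zero] at h
    rw [h]
  · rw [c0 2 (by norm_num), mn]
    have h := cb_two ν hmo d hd K hK (hE 2)
    unfold cb at h
    rw [if_neg two_ne_zero] at h
    rw [h]
    have hv : ∫ t, (t - ∫ s, s ∂ν) ^ 2 ∂ν = (∫ t, t ^ 2 ∂ν) - (∫ t, t ∂ν) ^ 2 := by
      obtain ⟨m, hm⟩ : ∃ m : ℝ, m = ∫ s, s ∂ν := ⟨_, rfl⟩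
      rw [← hm]
      have i1 : Integrable (fun t : ℝ => t) ν := by
        have := pow_int ν hmo 1
        simpa using this
      have i2 : Integrable (fun t : ℝ => t ^ 2) ν := pow_int ν hmo 2
      have e1 : ∀ t : ℝ, (t - m) ^ 2 = t ^ 2 - 2 * m * t + m ^ 2 := fun t => by ring
      simp only [e1]
      have hsub : Integrable (fun t : ℝ => t ^ 2 - 2 * m * t) ν := i2.sub (i1.const_mul (2 * m))
      have q1 : ∫ t, (t ^ 2 - 2 * m * t + m ^ 2) ∂ν = (∫ t, (t ^ 2 - 2 * m * t) ∂ν) + m ^ 2 := by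
        rw [integral_add hsub (integrable_const (m ^ 2))]
        simp
      have q2 : ∫ t, (t ^ 2 - 2 * m * t) ∂ν = (∫ t, t ^ 2 ∂ν) - 2 * m * ∫ t, t ∂ν := by
        rw [integral_sub i2 (i1.const_mul (2 * m)), integral_const_mul]
      rw [q1, q2, ← hm]
      ring
    rw [hv]
    ring
  · rw [c0 3 (by norm_num), mn, bco_three ν hmo d hd K hK (hE 3)]
    ring
  · rw [c0 4 (by norm_num), mn, mn, bco_four ν hmo d hd K hK (hE 4)]
    ring
  · have hint : Integrable (fun V => ep V n) (Measure.pi fun _ : T d (L + 1) => ν) := by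
      cases n with
      | zero =>
        show Integrable (fun _ => (0 : ℝ)) _
        exact integrable_const _
      | succ n => exact pb_int ν hmo (pb_ep n)
    have hm : Measurable (fun V : T d (L + 1) → ℝ => ep V n) := by
      cases n with
      | zero => exact measurable_const
      | succ n => exact (pb_ep n).1.measurable
    have h1 := pi_scl ν b d (L + 1)
    rw [hμν, ← h1.map_eq, integrable_map_measure hm.aestronglyMeasurable h1.measurable.aemeasurable]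
    have e : ((fun V : T d (L + 1) → ℝ => ep V n) ∘ fun (V : T d (L + 1) → ℝ) x => b * V x) =
        fun V => b ^ n * ep V n := by
      funext V
      exact ep_smul b V n
    rw [e]
    exact hint.const_mul _
  · have e : ∀ L : ℕ, ∫ V, ep V n ∂(Measure.pi fun _ : T d (L + 1) => μ) =
        b ^ n * ∫ V, ep V n ∂(Measure.pi fun _ : T d (L + 1) => ν) := by
      intro L
      have h := aL_scl ν b d (L + 1) n
      rw [← hμν] at h
      exact h
    simp only [e]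
    cases n with
    | zero =>
      have h1 : ∀ L : ℕ, b ^ 0 * ∫ V : T d (L + 1) → ℝ, ep V 0
          ∂(Measure.pi fun _ : T d (L + 1) => ν) = 0 := by
        intro L
        show b ^ 0 * ∫ V : T d (L + 1) → ℝ, (0 : ℝ) ∂(Measure.pi fun _ : T d (L + 1) => ν) = 0
        simp
      simp only [h1]
      unfold co cb
      simp
    | succ n =>
      have h1 := lim_all ν hmo d hd (n + 1) K hK (hE (n + 1)) n (by omega)
      rw [c0 (n + 1) (by omega)]
      exact h1.const_mul _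

theorem edges (d : ℕ) (hd : 4 ≤ d) (b : ℝ) (hb : 0 < b) (D : ℝ) (hD : 0 < D) (η : ℝ) (hη : 0 < η)
    (hη1 : η ≤ 1) : ∃ k K : ℝ, 0 < k ∧ 0 < K ∧
      ∀ (μ : Measure ℝ) [IsProbabilityMeasure μ],
      μ (Set.Icc (-b) b)ᶜ = 0 → μ ≤ ENNReal.ofReal D • (volume : Measure ℝ) →
      ∃ Em Ep : ℝ → ℝ,
      (∀ N : ℕ, ∃ C : ℝ, ∀ lam : ℝ, 0 < lam → lam ≤ k →
        |Em lam - ∑ n ∈ Finset.range (N + 1), co d b μ n * lam ^ n| ≤ C * lam ^ (N + 1) ∧
        |Ep lam - (4 * d - ∑ n ∈ Finset.range (N + 1), co d b μ n * (-lam) ^ n)| ≤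
          C * lam ^ (N + 1)) ∧
      ∀ lam : ℝ, 0 < lam → lam ≤ k →
      Flat d η μ k K lam (Em lam) ∧ Flat d η (μ.map fun t => -t) k K lam (4 * d - Ep lam) ∧
      (∀ κ : ℝ, Real.exp (-(k * sc d lam)) ≤ κ → κ ≤ 1 →
        ∀ᵐ ω ∂(Measure.infinitePi fun _ : Fin d → ℤ => μ),
          Localized (H lam ω) {E | E ≤ Em lam - κ ∨ Ep lam + κ ≤ E}
            (k * Real.sqrt κ / Real.log (2 / (κ * lam)))) ∧
      Spread d μ k K lam (Em lam) (Ep lam) := by
  obtain ⟨k', K, hk', hK, h⟩ := expand1 d hd (D * b) (by positivity) η hη hη1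
  obtain ⟨s, hs0, hs⟩ := sc_scl d b hb
  obtain ⟨k0, hk0, hrate⟩ := rate_le b hb k' hk'
  obtain ⟨k, hk⟩ : ∃ k : ℝ, k = min (min (k' / b) (k' * s)) (min k0 (min 1 (1 / b))) := ⟨_, rfl⟩
  have hkpos : 0 < k := by rw [hk]; positivity
  have k1 : k ≤ k' / b := by rw [hk]; exact (min_le_left _ _).trans (min_le_left _ _)
  have k2 : k ≤ k' * s := by rw [hk]; exact (min_le_left _ _).trans (min_le_right _ _)
  have k3 : k ≤ k0 := by rw [hk]; exact (min_le_right _ _).trans (min_le_left _ _)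
  have k4 : k ≤ 1 := by
    rw [hk]; exact (min_le_right _ _).trans ((min_le_right _ _).trans (min_le_left _ _))
  have k5 : k ≤ 1 / b := by
    rw [hk]; exact (min_le_right _ _).trans ((min_le_right _ _).trans (min_le_right _ _))
  refine ⟨k, K, hkpos, hK, ?_⟩
  intro μ _ hsupp hdens
  obtain ⟨ν, hν⟩ : ∃ ν, ν = scl b⁻¹ μ := ⟨_, rfl⟩
  have hp : IsProbabilityMeasure ν := by rw [hν]; exact scl_prob μ b⁻¹
  have hs' : ν (Set.Icc (-1) 1)ᶜ = 0 := by rw [hν]; exact scl_supp μ b hb hsupp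
  have hD' : ν ≤ ENNReal.ofReal (D * b) • (volume : Measure ℝ) := by
    rw [hν]; exact scl_dens μ b hb D hdens
  have hμν : μ = scl b ν := by rw [hν]; exact (scl_inv μ b hb.ne').symm
  obtain ⟨Em, Ep, hexp, hrest⟩ := h ν hs' hD'
  refine ⟨fun lam => Em (b * lam), fun lam => Ep (b * lam), ?_, ?_⟩
  · intro N
    obtain ⟨C, hC⟩ := hexp N
    refine ⟨C * b ^ (N + 1), fun lam hl hlk => ?_⟩
    have hbl : b * lam ≤ k' := by
      have : lam ≤ k' / b := hlk.trans k1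
      rw [le_div_iff₀ hb] at this
      linarith
    obtain ⟨q1, q2⟩ := hC (b * lam) (by positivity) hbl
    have e1 : ∑ n ∈ Finset.range (N + 1), co d b μ n * lam ^ n =
        ∑ n ∈ Finset.range (N + 1), cb d ν n * (b * lam) ^ n := by
      refine Finset.sum_congr rfl fun n _ => ?_
      unfold co
      rw [← hν, mul_pow]
      ring
    have e2 : ∑ n ∈ Finset.range (N + 1), co d b μ n * (-lam) ^ n =
        ∑ n ∈ Finset.range (N + 1), cb d ν n * (-(b * lam)) ^ n := by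
      refine Finset.sum_congr rfl fun n _ => ?_
      unfold co
      rw [← hν, show -(b * lam) = b * -lam by ring, mul_pow]
      ring
    rw [e1, e2, mul_assoc, ← mul_pow]
    exact ⟨q1, q2⟩
  · intro lam hl hlk
    have hbl : b * lam ≤ k' := by
      have : lam ≤ k' / b := hlk.trans k1
      rw [le_div_iff₀ hb] at this
      linarith
    have hbl1 : b * lam ≤ 1 := by
      have : lam ≤ 1 / b := hlk.trans k5
      rw [le_div_iff₀ hb] at this
      linarith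
    have hsc := sc_pos d lam hl
    have hks : k * sc d lam ≤ k' * sc d (b * lam) := by
      rw [hs lam hl, ← mul_assoc]
      exact mul_le_mul_of_nonneg_right k2 hsc.le
    obtain ⟨r1, r2, r3, r4⟩ := hrest (b * lam) (by positivity) hbl
    have hm : IsProbabilityMeasure (ν.map fun t : ℝ => -t) :=
      Measure.isProbabilityMeasure_map measurable_neg.aemeasurable
    have hneg : (μ.map fun t => -t) = scl b (ν.map fun t => -t) := by
      rw [hμν, scl_neg]
    refine ⟨?_, ?_, ?_, ?_⟩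
    · rw [hμν]
      exact flat_scl d η ν b hb k k' K lam _ hks r1
    · rw [hneg]
      exact flat_scl d η _ b hb k k' K lam _ hks r2
    · intro κ hκ hκ1
      rw [hμν]
      have h3 : Real.exp (-(k' * sc d (b * lam))) ≤ Real.exp (-(k * sc d lam)) :=
        Real.exp_le_exp.2 (by linarith)
      have hκ0 : 0 < κ := lt_of_lt_of_le (Real.exp_pos _) hκ
      exact loc_scl d ν b hb lam _ _ _
        (hrate k hkpos k3 lam κ hl (hlk.trans k4) hbl1 hκ0 hκ1) (r3 κ (h3.trans hκ) hκ1)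
    · rw [hμν]
      exact spread_scl d ν b hb k k' K lam _ _ hks r4

end Pool.Agent.K3h27.EF
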