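import Pool.Agent.K3h27.EF.Lim

/-! Scaling: laws with support in `[-b, b]`. -/

set_option autoImplicit false
set_option linter.unusedSectionVars false

open scoped BigOperators ENNReal Topology
open MeasureTheory ProbabilityTheory Filter

namespace Pool.Agent.K3h27.EF

open Pool.Agent.H4R2.AE.Conc (PP int_mp)
open Pool.Agent.Y661.EX
open Pool.Agent.Results.MP_28b024_mp.MobilityEdgeScale

section coef

variable {d L : ℕ} [NeZero L]

theorem phi_smul (c : ℝ) (V : T d L → ℝ) (n : ℕ) :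
    phi (fun y => c * V y) n = fun x => c ^ n * phi V n x := by
  induction n using Nat.strong_induction_on with
  | _ n ih =>
    cases n with
    | zero =>
      funext x
      rw [phi_zero, phi_zero, pow_zero, one_mul]
    | succ n =>
      have hep : ∀ k, k ≤ n → ep (fun y => c * V y) (k + 1) = c ^ (k + 1) * ep V (k + 1) := by
        intro k hk
        show av (fun y => c * V y * phi (fun y => c * V y) k y) =
          c ^ (k + 1) * av (fun y => V y * phi V k y)
        rw [ih k (by omega), ← av_smul]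
        congr 1
        funext y
        ring
      rw [phi_succ, phi_succ, ← Gr_smul]
      congr 1
      funext x
      rw [mul_add, Finset.mul_sum, ih n (by omega)]
      congr 1
      · ring
      · refine Finset.sum_congr rfl fun k _ => ?_
        have hk := k.2
        rw [hep k (by omega), ih (n - k) (by omega)]
        have e1 : c ^ (n + 1) = c ^ ((k : ℕ) + 1) * c ^ (n - (k : ℕ)) := by
          rw [← pow_add]
          congr 1
          omega
        rw [e1]
        ring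

theorem ep_smul (c : ℝ) (V : T d L → ℝ) (n : ℕ) : ep (fun y => c * V y) n = c ^ n * ep V n := by
  cases n with
  | zero =>
    show (0 : ℝ) = c ^ 0 * 0
    simp
  | succ k =>
    show av (fun y => c * V y * phi (fun y => c * V y) k y) =
      c ^ (k + 1) * av (fun y => V y * phi V k y)
    rw [phi_smul, ← av_smul]
    congr 1
    funext y
    ring

end coef

section laws

/-- the scaled law -/
noncomputable def scl (b : ℝ) (μ : Measure ℝ) : Measure ℝ := μ.map fun t => b * t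

variable (μ : Measure ℝ) [IsProbabilityMeasure μ] (b : ℝ)

theorem scl_prob : IsProbabilityMeasure (scl b μ) :=
  Measure.isProbabilityMeasure_map (by fun_prop)

theorem scl_inv (hb : b ≠ 0) : scl b (scl b⁻¹ μ) = μ := by
  unfold scl
  rw [Measure.map_map (by fun_prop) (by fun_prop)]
  have : ((fun t : ℝ => b * t) ∘ fun t => b⁻¹ * t) = id := by
    funext t
    simp only [Function.comp, id]
    rw [← mul_assoc, mul_inv_cancel₀ hb, one_mul]
  rw [this, Measure.map_id]

theorem scl_neg : (scl b μ).map (fun t => -t) = scl b (μ.map fun t => -t) := by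
  unfold scl
  rw [Measure.map_map (by fun_prop) (by fun_prop), Measure.map_map (by fun_prop) (by fun_prop)]
  congr 1
  funext t
  simp only [Function.comp]
  ring

theorem scl_supp (hb : 0 < b) (h : μ (Set.Icc (-b) b)ᶜ = 0) :
    (scl b⁻¹ μ) (Set.Icc (-1) 1)ᶜ = 0 := by
  unfold scl
  rw [Measure.map_apply (by fun_prop) measurableSet_Icc.compl]
  refine measure_mono_null ?_ h
  intro t ht
  rw [Set.mem_preimage, Set.mem_compl_iff, Set.mem_Icc] at ht
  rw [Set.mem_compl_iff, Set.mem_Icc]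
  rintro ⟨h1, h2⟩
  apply ht
  rw [inv_mul_eq_div, le_div_iff₀ hb, div_le_iff₀ hb]
  constructor <;> linarith

theorem scl_dens (hb : 0 < b) (M : ℝ) (h : μ ≤ ENNReal.ofReal M • (volume : Measure ℝ)) :
    scl b⁻¹ μ ≤ ENNReal.ofReal (M * b) • (volume : Measure ℝ) := by
  have hemb : MeasurableEmbedding (fun t : ℝ => b⁻¹ * t) :=
    (Homeomorph.mulLeft₀ b⁻¹ (inv_ne_zero hb.ne')).measurableEmbedding
  have hv : (volume : Measure ℝ).map (fun t : ℝ => b⁻¹ * t) = ENNReal.ofReal b • volume := by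
    have h1 := Real.map_volume_mul_left (inv_ne_zero hb.ne')
    rw [inv_inv, abs_of_pos hb] at h1
    exact h1
  unfold scl
  rw [Measure.le_iff]
  intro s hs
  rw [Measure.map_apply (by fun_prop) hs]
  have h1 := h ((fun t : ℝ => b⁻¹ * t) ⁻¹' s)
  refine h1.trans ?_
  rw [Measure.smul_apply, Measure.smul_apply, ← Measure.map_apply (by fun_prop) hs, hv,
    Measure.smul_apply, smul_eq_mul, smul_eq_mul, smul_eq_mul, ENNReal.ofReal_mul' hb.le,
    mul_assoc]

theorem pi_scl (d L : ℕ) [NeZero L] : MeasurePreserving (fun (V : T d L → ℝ) x => b * V x)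
    (Measure.pi fun _ : T d L => μ) (Measure.pi fun _ : T d L => scl b μ) := by
  have : IsProbabilityMeasure (scl b μ) := scl_prob μ b
  exact measurePreserving_pi (fun _ : T d L => μ) (fun _ : T d L => scl b μ)
    (f := fun _ (t : ℝ) => b * t) (fun _ => ⟨by fun_prop, rfl⟩)

theorem ipi_scl (d : ℕ) :
    (Measure.infinitePi fun _ : Fin d → ℤ => μ).map (fun ω x => b * ω x) =
      Measure.infinitePi fun _ : Fin d → ℤ => scl b μ :=
  Measure.infinitePi_map_pi (μ := fun _ : Fin d → ℤ => μ)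
    (f := fun _ (s : ℝ) => b * s) (fun _ => by fun_prop)

theorem aL_scl (d L : ℕ) [NeZero L] (n : ℕ) : ∫ V, ep V n ∂(Measure.pi fun _ : T d L => scl b μ) =
    b ^ n * ∫ V, ep V n ∂(Measure.pi fun _ : T d L => μ) := by
  have hm : Measurable (fun V : T d L → ℝ => ep V n) := by
    cases n with
    | zero => exact measurable_const
    | succ n => exact (pb_ep n).1.measurable
  rw [← int_mp (pi_scl μ b d L) hm, ← integral_const_mul]
  exact integral_congr_ae (Filter.Eventually.of_forall fun V => ep_smul b V n)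

theorem scl_int_pow (n : ℕ) : ∫ t, t ^ n ∂(scl b μ) = b ^ n * ∫ t, t ^ n ∂μ := by
  unfold scl
  rw [integral_map (by fun_prop) (by fun_prop), ← integral_const_mul]
  refine integral_congr_ae (Filter.Eventually.of_forall fun t => ?_)
  exact mul_pow _ _ _

theorem scl_mean : ∫ t, t ∂(scl b μ) = b * ∫ t, t ∂μ := by
  have := scl_int_pow μ b 1
  simpa using this

theorem scl_cm (n : ℕ) : ∫ t, (t - ∫ s, s ∂(scl b μ)) ^ n ∂(scl b μ) =
    b ^ n * ∫ t, (t - ∫ s, s ∂μ) ^ n ∂μ := by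
  rw [scl_mean]
  obtain ⟨m, hm⟩ : ∃ m : ℝ, m = ∫ s, s ∂μ := ⟨_, rfl⟩
  rw [← hm]
  unfold scl
  have h1 : ∫ t, (t - b * m) ^ n ∂(μ.map fun t => b * t) = ∫ t, (b * t - b * m) ^ n ∂μ :=
    integral_map (by fun_prop) (by fun_prop)
  rw [h1, ← integral_const_mul]
  refine integral_congr_ae (Filter.Eventually.of_forall fun t => ?_)
  beta_reduce
  rw [← mul_sub, mul_pow]

end laws

/-! ### The operators -/

theorem H_div {d : ℕ} (b : ℝ) (hb : b ≠ 0) (lam : ℝ) (ω : (Fin d → ℤ) → ℝ) :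
    H lam ω = H (b * lam) (fun x => ω x / b) := by
  funext u x
  unfold H
  congr 3
  field_simp

theorem HT_div {d L : ℕ} (b : ℝ) (hb : b ≠ 0) (lam : ℝ) (V f : T d L → ℝ) (x : T d L) :
    HT lam V f x = HT (b * lam) (fun y => V y / b) f x := by
  unfold HT
  congr 1
  field_simp

theorem ext_div {d L : ℕ} [NeZero L] (b : ℝ) (hb : b ≠ 0) (lam η κ Es : ℝ) (V : T d L → ℝ)
    (h : ExtendedGroundState (b * lam) η κ Es (fun y => V y / b)) :
    ExtendedGroundState lam η κ Es V := by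
  obtain ⟨E0, ψ, h1, h2, h3, h4⟩ := h
  refine ⟨E0, ψ, h1, h2, fun x => ?_, fun f hf => ?_⟩
  · rw [HT_div b hb]
    exact h3 x
  · have := h4 f hf
    have e : ∀ x, HT (b * lam) (fun y => V y / b) f x = HT lam V f x := fun x =>
      (HT_div b hb lam V f x).symm
    simpa only [e] using this

theorem localized_mono {d : ℕ} (A : ((Fin d → ℤ) → ℂ) → (Fin d → ℤ) → ℂ) (S : Set ℝ) (r r' : ℝ)
    (hr : r' ≤ r) (h : Localized A S r) : Localized A S r' := by
  refine ⟨fun E hE ψ h1 h2 => ?_, h.2⟩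
  obtain ⟨C, hC⟩ := h.1 E hE ψ h1 h2
  have hC0 : 0 ≤ C := by
    by_contra hc
    push Not at hc
    have h3 := hC 0
    have h4 : C * Real.exp (-(r * ‖(0 : Fin d → ℤ)‖)) < 0 :=
      mul_neg_of_neg_of_pos hc (Real.exp_pos _)
    linarith [norm_nonneg (ψ 0)]
  refine ⟨C, fun x => (hC x).trans ?_⟩
  gcongr

/-- flat ground states on tori -/
def Flat (d : ℕ) (η : ℝ) (μ : Measure ℝ) (k K lam Es : ℝ) : Prop :=
  ∀ (L : ℕ) [NeZero L], (L : ℝ) ≤ Real.exp (k * sc d lam) →
    ∃ G : Set (T d L → ℝ), MeasurableSet G ∧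
      1 - Real.exp (-(k * sc d lam)) ≤ (Measure.pi fun _ : T d L => μ).real G ∧
      ∀ V ∈ G, ExtendedGroundState lam η (K / (L : ℝ) ^ 2) Es V

theorem flat_scl (d : ℕ) (η : ℝ) (μ : Measure ℝ) [IsProbabilityMeasure μ] (b : ℝ) (hb : 0 < b)
    (k k' K lam Es : ℝ) (hk : k * sc d lam ≤ k' * sc d (b * lam))
    (h : Flat d η μ k' K (b * lam) Es) : Flat d η (scl b μ) k K lam Es := by
  intro L _ hL
  obtain ⟨G, hG, hP, hF⟩ := h L (hL.trans (Real.exp_le_exp.2 hk))
  have hm : Measurable (fun (V : T d L → ℝ) y => V y / b) := by fun_prop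
  refine ⟨(fun V y => V y / b) ⁻¹' G, hm hG, ?_, fun V hV => ext_div b hb.ne' _ _ _ _ _ (hF _ hV)⟩
  have h1 := pi_scl μ b d L
  have hm2 : Measurable (fun (ω : T d L → ℝ) x => b * ω x) := by fun_prop
  rw [← h1.map_eq, map_measureReal_apply hm2 (hm hG)]
  have h2 : (fun (ω : T d L → ℝ) x => b * ω x) ⁻¹' ((fun ω y => ω y / b) ⁻¹' G) = G := by
    ext ω
    simp only [Set.mem_preimage]
    have : (fun y => b * ω y / b) = ω := by
      funext y
      field_simp
    rw [this]
  rw [h2]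
  have h3 : Real.exp (-(k' * sc d (b * lam))) ≤ Real.exp (-(k * sc d lam)) :=
    Real.exp_le_exp.2 (by linarith)
  linarith

/-- spread-out states -/
def Spread (d : ℕ) (μ : Measure ℝ) (k K lam Em Ep : ℝ) : Prop :=
  ∃ Bad : ((Fin d → ℤ) → ℝ) → Set (Fin d → ℤ),
    (∀ x, MeasurableSet {ω | x ∈ Bad ω}) ∧
    (∀ ω a x, x ∈ Bad (fun y => ω (y + a)) ↔ x + a ∈ Bad ω) ∧
    (∀ x, (Measure.infinitePi fun _ : Fin d → ℤ => μ).real {ω | x ∈ Bad ω} ≤
      Real.exp (-(k * sc d lam))) ∧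
    ∀ ω x, x ∉ Bad ω → ∀ κ : ℝ, Real.exp (-(k * sc d lam)) ≤ κ → κ ≤ 1 →
      (∀ (E : ℝ) (u : (Fin d → ℤ) → ℂ), (E ≤ Em + κ ∨ Ep - κ ≤ E) → SqSummable u →
        (∀ y, H lam ω u y = (E : ℂ) * u y) →
          ‖u x‖ ^ 2 ≤ K * κ ^ ((d : ℝ) / 2) * ∑' y, ‖u y‖ ^ 2) ∧
      ∀ m : Measure ℝ, IsSpectralMeasureAt (H lam ω) x m →
        m.real (Set.Iic (Em + κ)) ≤ K * κ ^ ((d : ℝ) / 2)

theorem spread_scl (d : ℕ) (μ : Measure ℝ) [IsProbabilityMeasure μ] (b : ℝ) (hb : 0 < b)
    (k k' K lam Em Ep : ℝ) (hk : k * sc d lam ≤ k' * sc d (b * lam))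
    (h : Spread d μ k' K (b * lam) Em Ep) : Spread d (scl b μ) k K lam Em Ep := by
  obtain ⟨Bad, B1, B2, B3, B4⟩ := h
  have h3 : Real.exp (-(k' * sc d (b * lam))) ≤ Real.exp (-(k * sc d lam)) :=
    Real.exp_le_exp.2 (by linarith)
  have hm : Measurable (fun (ω : (Fin d → ℤ) → ℝ) y => ω y / b) := by fun_prop
  refine ⟨fun ω => Bad (fun y => ω y / b), fun x => hm (B1 x), fun ω a x => ?_, fun x => ?_, ?_⟩
  · exact B2 (fun y => ω y / b) a x
  · have h1 := ipi_scl μ b d
    have hm2 : Measurable (fun (ω : (Fin d → ℤ) → ℝ) x => b * ω x) := by fun_prop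
    have hms : MeasurableSet {ω : (Fin d → ℤ) → ℝ | x ∈ Bad (fun y => ω y / b)} := hm (B1 x)
    rw [← h1, map_measureReal_apply hm2 hms]
    have h2 : (fun (ω : (Fin d → ℤ) → ℝ) x => b * ω x) ⁻¹'
        {ω : (Fin d → ℤ) → ℝ | x ∈ Bad (fun y => ω y / b)} = {ω | x ∈ Bad ω} := by
      ext ω
      simp only [Set.mem_preimage, Set.mem_setOf_eq]
      have : (fun y => b * ω y / b) = ω := by
        funext y
        field_simp
      rw [this]
    rw [h2]
    exact (B3 x).trans h3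
  · intro ω x hx κ hκ hκ1
    rw [H_div b hb.ne' lam ω]
    exact B4 _ x hx κ (h3.trans hκ) hκ1

theorem loc_scl (d : ℕ) (μ : Measure ℝ) [IsProbabilityMeasure μ] (b : ℝ) (hb : 0 < b)
    (lam : ℝ) (S : Set ℝ) (r r' : ℝ) (hr : r ≤ r')
    (h : ∀ᵐ ω ∂(Measure.infinitePi fun _ : Fin d → ℤ => μ), Localized (H (b * lam) ω) S r') :
    ∀ᵐ ω ∂(Measure.infinitePi fun _ : Fin d → ℤ => scl b μ), Localized (H lam ω) S r := by
  have hemb : MeasurableEmbedding (fun (ω : (Fin d → ℤ) → ℝ) x => b * ω x) :=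
    (Homeomorph.piCongrRight fun _ => Homeomorph.mulLeft₀ b hb.ne').measurableEmbedding
  rw [← ipi_scl μ b d, hemb.ae_map_iff]
  filter_upwards [h] with ω hω
  rw [H_div b hb.ne' lam]
  have : (fun x => b * ω x / b) = ω := by
    funext y
    field_simp
  rw [this]
  exact localized_mono _ _ _ _ hr hω

theorem sc_scl (d : ℕ) (b : ℝ) (hb : 0 < b) : ∃ s : ℝ, 0 < s ∧ ∀ lam : ℝ, 0 < lam →
    sc d (b * lam) = s * sc d lam := by
  by_cases h : d = 4
  · refine ⟨1 / b, by positivity, fun lam hl => ?_⟩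
    unfold sc
    rw [if_pos h, if_pos h]
    field_simp
  · refine ⟨1 / Real.sqrt b ^ d, by positivity, fun lam hl => ?_⟩
    unfold sc
    rw [if_neg h, if_neg h, Real.sqrt_mul hb.le, mul_pow]
    field_simp

theorem sc_pos (d : ℕ) (lam : ℝ) (hl : 0 < lam) : 0 < sc d lam := by
  unfold sc
  split_ifs <;> positivity

/-- comparison of the rates -/
theorem rate_le (b : ℝ) (hb : 0 < b) (k' : ℝ) (hk' : 0 < k') : ∃ k0 : ℝ, 0 < k0 ∧
    ∀ k : ℝ, 0 < k → k ≤ k0 → ∀ lam κ : ℝ, 0 < lam → lam ≤ 1 → b * lam ≤ 1 → 0 < κ → κ ≤ 1 →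
      k * Real.sqrt κ / Real.log (2 / (κ * lam)) ≤
        k' * Real.sqrt κ / Real.log (2 / (κ * (b * lam))) := by
  obtain ⟨A, hA⟩ : ∃ A : ℝ, A = 1 + |Real.log b| / Real.log 2 := ⟨_, rfl⟩
  have hl2 : 0 < Real.log 2 := Real.log_pos (by norm_num)
  have hA1 : 1 ≤ A := by
    rw [hA]
    have : 0 ≤ |Real.log b| / Real.log 2 := by positivity
    linarith
  refine ⟨k' / A, by positivity, ?_⟩
  intro k hk hkk lam κ hl hl1 hbl hκ hκ1
  have hx : 0 < κ * lam := by positivity
  have hx1 : κ * lam ≤ 1 := mul_le_one₀ hκ1 hl.le hl1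
  have hy : 0 < κ * (b * lam) := by positivity
  have hy1 : κ * (b * lam) ≤ 1 := mul_le_one₀ hκ1 (by positivity) hbl
  have e1 : Real.log (2 / (κ * lam)) = Real.log 2 - Real.log (κ * lam) :=
    Real.log_div (by norm_num) hx.ne'
  have e2 : Real.log (2 / (κ * (b * lam))) = Real.log 2 - Real.log b - Real.log (κ * lam) := by
    rw [Real.log_div (by norm_num) hy.ne', show κ * (b * lam) = b * (κ * lam) by ring,
      Real.log_mul hb.ne' hx.ne']
    ring
  have g1 : Real.log (κ * lam) ≤ 0 := Real.log_nonpos hx.le hx1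
  have g2 : Real.log (κ * (b * lam)) ≤ 0 := Real.log_nonpos hy.le hy1
  have p1 : Real.log 2 ≤ Real.log (2 / (κ * lam)) := by rw [e1]; linarith
  have p2 : Real.log 2 ≤ Real.log (2 / (κ * (b * lam))) := by
    rw [Real.log_div (by norm_num) hy.ne']
    linarith
  have q1 : Real.log (2 / (κ * (b * lam))) ≤ A * Real.log (2 / (κ * lam)) := by
    rw [e2, hA, add_mul, one_mul, e1]
    have h3 : |Real.log b| ≤ |Real.log b| / Real.log 2 * (Real.log 2 - Real.log (κ * lam)) := by
      rw [div_mul_eq_mul_div, le_div_iff₀ hl2]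
      exact mul_le_mul_of_nonneg_left (by linarith) (abs_nonneg _)
    have h4 := neg_abs_le (Real.log b)
    linarith
  have hs : 0 ≤ Real.sqrt κ := Real.sqrt_nonneg κ
  have hA0 : 0 < A := by linarith
  rw [div_le_div_iff₀ (by linarith) (by linarith)]
  calc k * Real.sqrt κ * Real.log (2 / (κ * (b * lam)))
      ≤ (k' / A) * Real.sqrt κ * (A * Real.log (2 / (κ * lam))) := by
        apply mul_le_mul (mul_le_mul_of_nonneg_right hkk hs) q1 (by linarith) (by positivity)
    _ = k' * Real.sqrt κ * Real.log (2 / (κ * lam)) := by field_simp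

end Pool.Agent.K3h27.EF
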